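import Pool.Agent.Lib.MP_8622f1_pr.UN.STR
import Pool.Agent.Lib.MP_8622f1_pr.UN.KEY

set_option autoImplicit false

open Classical Filter Topology

/-!
# Free Ising state and symmetric mixture on all nonamenable transitive graphs

The proof is in the directories `Pool/Agent/Lib/MP_8622f1_pr/UN`, `DS` (unimodular case) and `NU`
(nonunimodular case), `RP` (from the critical point to a neighbourhood of it).
-/

namespace Pool.Agent.Results.MP_8622f1_pr.AllNonamenable

open MP8622

/-- Let `G` be a connected, locally finite, transitive, nonamenable graph. There are `βc > 0`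
(the critical point: the plus magnetization is `0` below and positive above `βc`), `ε > 0` and `B`
such that for ALL `β` with `0 < β < βc + ε` the infinite volume free two point function exists and
is a bounded operator on `ℓ²(G)` with the uniform bound `B`, and for EVERY `β` with
`βc < β < βc + ε` the free state differs from the average of the plus and minus states.
(`σ`, `E`, `C` are the spins, energies and finite volume correlations of the problem.) -/
theorem result :
  ∀ (V : Type) (G : SimpleGraph V) [G.LocallyFinite],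
    G.Connected →
    (∀ x y : V, ∃ φ : G ≃g G, φ x = y) →
    (∃ c : ℝ, 0 < c ∧ ∀ S : Finset V,
        c * (S.card : ℝ) ≤ ∑ x ∈ S, ((G.neighborFinset x \ S).card : ℝ)) →
    ∀ (o : V) (σ : ℝ → Finset V → Finset V → V → ℝ),
      (∀ (h : ℝ) (Λ S : Finset V) (x : V),
          σ h Λ S x = if x ∈ Λ then (if x ∈ S then (1 : ℝ) else -1) else h) →
    ∀ E : ℝ → Finset V → Finset V → ℝ,
      (∀ (h : ℝ) (Λ S : Finset V),
          E h Λ S = ∑ x ∈ Λ, ∑ y ∈ G.neighborFinset x,
            (if y ∈ Λ then (1 / 2 : ℝ) else 1) * σ h Λ S x * σ h Λ S y) →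
    ∀ C : ℝ → ℝ → Finset V → Finset V → ℝ,
      (∀ (β h : ℝ) (A Λ : Finset V),
          C β h A Λ =
            (∑ S ∈ Λ.powerset, (∏ x ∈ A, σ h Λ S x) * Real.exp (β * E h Λ S)) /
              ∑ S ∈ Λ.powerset, Real.exp (β * E h Λ S)) →
    ∃ βc ε B : ℝ, 0 < βc ∧ 0 < ε ∧
      (∀ β : ℝ, 0 < β → β < βc → Tendsto (fun Λ : Finset V => C β 1 {o} Λ) atTop (𝓝 0)) ∧
      (∀ β : ℝ, βc < β → ∃ p : ℝ, 0 < p ∧
        Tendsto (fun Λ : Finset V => C β 1 {o} Λ) atTop (𝓝 p)) ∧
      ∀ β : ℝ, 0 < β → β < βc + ε →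
        (∃ τ : V → V → ℝ, (∀ x, τ x x = 1) ∧
          (∀ x y, x ≠ y → Tendsto (fun Λ : Finset V => C β 0 {x, y} Λ) atTop (𝓝 (τ x y))) ∧
          ∀ (S R : Finset V) (f : V → ℝ),
            ∑ x ∈ R, (∑ y ∈ S, τ x y * f y) ^ 2 ≤ B * ∑ y ∈ S, f y ^ 2) ∧
        (βc < β → ∃ A : Finset V, ∃ a p m : ℝ,
          Tendsto (fun Λ : Finset V => C β 0 A Λ) atTop (𝓝 a) ∧
          Tendsto (fun Λ : Finset V => C β 1 A Λ) atTop (𝓝 p) ∧
          Tendsto (fun Λ : Finset V => C β (-1) A Λ) atTop (𝓝 m) ∧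
          a ≠ (p + m) / 2) := by
  intro V G _ hconn htr hexp o σ hσ E hE C hC
  obtain ⟨c, hc, hiso⟩ := hexp
  have : Nonempty V := ⟨o⟩
  have : Infinite V := infinite_of_nonamenable G hc hiso
  have htr' : ∀ x y : V, ∃ g : V ≃ V, IsAut G g ∧ g x = y := by
    intro x y
    obtain ⟨φ, hφ⟩ := htr x y
    exact ⟨φ.toEquiv, fun a b => φ.map_adj_iff, hφ⟩
  obtain ⟨βc, b, B, hβc, hb, hlow, hup, hOB⟩ :=
    UN.STRM.coreA G hconn htr ⟨c, hc, hiso⟩ o
  exact UN.STRM.concl' G htr' o βc b B hβc hb hlow hup hOB σ hσ E hE C hC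

end Pool.Agent.Results.MP_8622f1_pr.AllNonamenable
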